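import Pool.Agent.H23.AF.Targets

/-!
# Module I2: coprime factorisations into two large factors
-/

namespace Pool.Agent.H54.AF

open Pool.Agent.H23.AF

theorem pf_I2 : T_I2 := by
  intro x hx
  have hx0 : x ≠ 0 := by omega
  set w : ℕ → ℕ := fun p => p ^ (x.factorization p) with hw
  have hprod : ∏ p ∈ x.primeFactors, w p = x := by
    have := Nat.prod_factorization_pow_eq_self hx0
    rwa [Finsupp.prod, Nat.support_factorization] at this
  by_cases h1 : ∃ p : ℕ, p.Prime ∧ p ∣ x ∧ x ^ 2 ≤ (p ^ (x.factorization p)) ^ 3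
  · exact Or.inl h1
  right
  push Not at h1
  -- it suffices to find a set of primes
  suffices hT : ∃ T ⊆ x.primeFactors, x ≤ (∏ p ∈ T, w p) ^ 3 ∧ (∏ p ∈ T, w p) ^ 3 ≤ x ^ 2 by
    obtain ⟨T, hTs, hT1, hT2⟩ := hT
    have e1 : (∏ p ∈ T, w p) * ∏ p ∈ x.primeFactors \ T, w p = x := by
      rw [mul_comm, Finset.prod_sdiff hTs, hprod]
    have hcop : Nat.Coprime (∏ p ∈ T, w p) (∏ p ∈ x.primeFactors \ T, w p) := by
      refine Nat.Coprime.prod_left fun p hp => Nat.Coprime.prod_right fun q hq => ?_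
      have hpp := Nat.prime_of_mem_primeFactors (hTs hp)
      have hqq := Nat.prime_of_mem_primeFactors (Finset.mem_sdiff.1 hq).1
      have hne : p ≠ q := by
        rintro rfl
        exact (Finset.mem_sdiff.1 hq).2 hp
      exact Nat.Coprime.pow _ _ ((Nat.coprime_primes hpp hqq).2 hne)
    have hB : x ≤ (∏ p ∈ x.primeFactors \ T, w p) ^ 3 := by
      set A := ∏ p ∈ T, w p
      set B := ∏ p ∈ x.primeFactors \ T, w p
      have h2 : x ^ 2 * x ≤ x ^ 2 * B ^ 3 := by
        calc x ^ 2 * x = (A * B) ^ 3 := by rw [e1]; ring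
          _ = A ^ 3 * B ^ 3 := by ring
          _ ≤ x ^ 2 * B ^ 3 := Nat.mul_le_mul_right _ hT2
      exact Nat.le_of_mul_le_mul_left h2 (by positivity)
    rcases le_total (∏ p ∈ T, w p) (∏ p ∈ x.primeFactors \ T, w p) with h | h
    · exact ⟨_, _, e1, hcop, h, hT1⟩
    · exact ⟨_, _, by rw [mul_comm]; exact e1, hcop.symm, h, hB⟩
  by_cases h2 : ∃ p ∈ x.primeFactors, x ≤ w p ^ 3
  · obtain ⟨p, hp, hpx⟩ := h2
    refine ⟨{p}, by simpa using hp, by simpa using hpx, ?_⟩
    rw [Finset.prod_singleton]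
    exact (h1 p (Nat.prime_of_mem_primeFactors hp) (Nat.dvd_of_mem_primeFactors hp)).le
  · push Not at h2
    have key : ∀ T : Finset ℕ, T ⊆ x.primeFactors → x ≤ (∏ p ∈ T, w p) ^ 3 →
        ∃ T' ⊆ T, x ≤ (∏ p ∈ T', w p) ^ 3 ∧ (∏ p ∈ T', w p) ^ 3 ≤ x ^ 2 := by
      intro T
      induction T using Finset.induction_on with
      | empty =>
        intro _ h
        refine ⟨∅, subset_rfl, h, ?_⟩
        rw [Finset.prod_empty]
        exact Nat.one_le_pow _ _ (by omega)
      | insert p T hp ih =>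
        intro hs h
        rcases Nat.lt_or_ge ((∏ p ∈ T, w p) ^ 3) x with h3 | h3
        · refine ⟨insert p T, subset_rfl, h, ?_⟩
          rw [Finset.prod_insert hp, mul_pow]
          have h4 : w p ^ 3 < x := h2 p (hs (Finset.mem_insert_self _ _))
          calc w p ^ 3 * (∏ p ∈ T, w p) ^ 3 ≤ x * x := Nat.mul_le_mul h4.le h3.le
            _ = x ^ 2 := by ring
        · obtain ⟨T', hT', h5, h6⟩ := ih ((Finset.subset_insert _ _).trans hs) h3
          exact ⟨T', hT'.trans (Finset.subset_insert _ _), h5, h6⟩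
    obtain ⟨T', hT', h5, h6⟩ := key x.primeFactors subset_rfl (by
      rw [hprod]
      exact Nat.le_self_pow (by norm_num) x)
    exact ⟨T', hT', h5, h6⟩

end Pool.Agent.H54.AF
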